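import Pool.Agent.OGD.All

/-!
OGM: hereditary classes of finite ordered structures with countably many binary relations and Vaught's
conjecture (definitions, statements; helper45).  One relation `c₀` of unbounded grid rank is treated
by `OGD`; the other relations of the codes are definable from `c₀` and the order.
-/

set_option autoImplicit false
set_option linter.unusedVariables false

namespace Pool.Agent.OGM

open FirstOrder.Language Set
open scoped FirstOrder
open Pool.Agent.PMC (Sy LP ls us Two)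
open Pool.Agent.Helper6.Str (PerfK CtblK Iso Code toStr)
open Pool.Agent.OGD (Lin Her Bdd Age Phi Cel Typ Good nlt nr AgeN lv pt dl dec enc Frame)
open VPF (ModF)

/-! ### The language -/

/-- unary symbols, the symbol of the order, binary symbols -/
inductive Sm (ι κ : Type) : ℕ → Type
  | un (i : ι) : Sm ι κ 1
  | lt : Sm ι κ 2
  | rl (c : κ) : Sm ι κ 2

/-- the language of an order, the binary relations `c : κ` and the unary predicates `i : ι` -/
def LM (ι κ : Type) : FirstOrder.Language.{0, 0} := ⟨fun _ => Empty, Sm ι κ⟩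

section

variable {ι κ M : Type} (S : (LM ι κ).Structure M)

/-- the unary predicates -/
def mu (i : ι) (x : M) : Prop := S.RelMap (n := 1) (Sm.un i : Sm ι κ 1) ![x]

/-- the order -/
def ml (x y : M) : Prop := S.RelMap (n := 2) (Sm.lt : Sm ι κ 2) ![x, y]

/-- the binary relations -/
def mr (c : κ) (x y : M) : Prop := S.RelMap (n := 2) (Sm.rl c : Sm ι κ 2) ![x, y]

end

/-! ### Classes -/

/-- `K n` is a set of structures on `{0, ..., n - 1}` (with the natural order) -/
abbrev Cla (κ : Type) : Type := ∀ n : ℕ, Set (κ → Fin n → Fin n → Prop)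

section

variable {κ : Type} (K : Cla κ)

/-- closed under suborders -/
def HerM : Prop :=
  ∀ (m n : ℕ) (f : Fin m → Fin n), StrictMono f → ∀ r ∈ K n, (fun c i j => r c (f i) (f j)) ∈ K m

/-- closed: membership is decided by the finite sets of relations -/
def CloM : Prop :=
  ∀ (n : ℕ) (r : κ → Fin n → Fin n → Prop),
    (∀ s : Finset κ, ∃ r' ∈ K n, ∀ c ∈ s, ∀ i j, r' c i j ↔ r c i j) → r ∈ K n

/-- the class of the reducts to one relation -/
def Pr (c : κ) : ∀ n : ℕ, Set (Fin n → Fin n → Prop) := fun n => {q | ∃ r ∈ K n, q = r c}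

/-- all finite suborders of `(M, lt, R)` are in `K` -/
def AgeM {M : Type} (lt : M → M → Prop) (R : κ → M → M → Prop) : Prop :=
  ∀ (m : ℕ) (z : Fin m → M), (∀ i j, i < j → lt (z i) (z j)) →
    (fun c i j => R c (z i) (z j)) ∈ K m

/-- all structures of two linear orders are coded in `K`, with the types `τ c` -/
def AgeNM (c₀ : κ) (τ : κ → Typ) : Prop :=
  ∀ (M : Type) (lt : Bool → M → M → Prop), (∀ b, Lin (lt b)) →
    AgeM K (nlt lt (τ c₀)) (fun c => nr lt (τ c))

/-- The dichotomy for first-order theories of structures with age in `K` and unary predicates. -/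
def VCM : Prop :=
  ∀ (ι : Type), Countable ι → ∀ T : (LM ι κ).Theory,
    (∀ S ∈ ModF T, Lin (ml S) ∧ AgeM K (ml S) (mr S)) → CtblK (ModF T) ∨ PerfK (ModF T)

end

/-! ### The positive half -/

/-- The dichotomy for ordered structures with binary relations without grids of size `k c` and unary
predicates (`GRK`). -/
def T4M : Prop :=
  ∀ (ι κ : Type), Countable ι → Countable κ → ∀ (T : (LM ι κ).Theory) (k : κ → ℕ),
    (∀ S ∈ ModF T, Lin (ml S) ∧ ∀ c, ¬ ∃ I J : Fin (k c) → Set ℕ,
      (∀ a a', a < a' → ∀ x ∈ I a, ∀ y ∈ I a', ml S x y) ∧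
      (∀ b b', b < b' → ∀ x ∈ J b, ∀ y ∈ J b', ml S x y) ∧
      ∀ a b, ∃ y : Fin (k c) → ℕ, (∀ i, y i ∈ J b) ∧
        ∀ i j, i ≠ j → ∃ x ∈ I a, ¬ (mr S c x (y i) ↔ mr S c x (y j))) →
    CtblK (ModF T) ∨ PerfK (ModF T)

/-- [OGB] classes of bounded grid rank, as OGD/OGA. -/
def St_OGB : Prop :=
  T4M → ∀ (κ : Type), Countable κ → ∀ K : Cla κ, (∀ c, Bdd (Pr K c)) → VCM K

/-! ### The sharp half -/

/-- [UNC] uniform types.
PROOF.  `c₀` is unbounded: SEP, CEL for `Pr K c₀` give boards for `r c₀`, `r ∈ K n`, of all sizes.  For a finite set `s` of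
relations RAM gives boards on which all `r c`, `c ∈ s`, are uniform.  An ultrafilter on `Finset κ × ℕ` gives types `τ c` for
all `c` which work for all finite `s` and all sizes.  `K` is closed. -/
def St_UNC : Prop :=
  ∀ (κ : Type) (K : Cla κ), HerM K → CloM K → ∀ c₀, ¬ Bdd (Pr K c₀) →
    ∃ τ : κ → Typ, Good (τ c₀) ∧ AgeNM K c₀ τ

/-- the dichotomy for the theories of codes -/
def FRT (τ : Typ) : Prop :=
  ∀ (ι : Type), Countable ι → ∀ T : (LP (ι ⊕ Fin 4)).Theory, (∀ S ∈ ModF T, Frame S τ) →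
    CtblK (ModF T) ∨ PerfK (ModF T)

/-- [EXP] the other relations are definable in the codes for `c₀`. -/
def St_EXP : Prop :=
  OGD.St_REC → ∀ (κ : Type), Countable κ → ∀ (K : Cla κ) (c₀ : κ) (τ : κ → Typ), AgeNM K c₀ τ →
    VCM K → FRT (τ c₀)

/-- [SHM] as OGD/SHQ. -/
def St_SHM : Prop :=
  OGD.St_FRM → OGD.St_TRN → OGD.St_COE → OGD.St_REC → OGD.St_FUN → OGD.St_DMS → PMC.St_MPK →
  ∀ τ : Typ, Good τ → FRT τ →
    ∀ (ι : Type), Countable ι → ∀ T : (LP ι).Theory, (∀ S ∈ ModF T, Two S) →
      CtblK (ModF T) ∨ PerfK (ModF T)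

end Pool.Agent.OGM
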