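import Pool.Agent.OGM.Defs
import Pool.Agent.OGD.FRM
import Pool.Agent.OGD.Ren

/-!
OGM module EXP (helper45): the other relations are definable in the codes for `c₀`.
-/

set_option autoImplicit false
set_option linter.unusedVariables false

namespace Pool.Agent.OGM

open FirstOrder FirstOrder.Language Set
open scoped FirstOrder
open Pool.Agent.PMC (Sy LP ls us Two)
open Pool.Agent.Helper6.Str (PerfK CtblK Iso)
open Pool.Agent.OGD (Lin Her Bdd Age Phi Cel Typ Good nlt nr AgeN lv pt dl dec enc Frame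
  FO_Df FO_T FO_fex FO_ex FO_and FO_v FO_up FRM_pt FRM_nr)
open VPF (ModF)

/-- the relation of type `τ` on a code -/
def EXP_D {ι M : Type} (S : (LP (ι ⊕ Fin 4)).Structure M) (τ : Typ) (x y : M) : Prop :=
  ∃ (l l' : Fin 4) (z z' : M), pt S l z x ∧ pt S l' z' y ∧ nr (dl S) τ (z, l) (z', l')

theorem EXP_def (ι : Type) (τ : Typ) :
    FO_Df (ι ⊕ Fin 4) 2 fun M S v => EXP_D S τ (v 0) (v 1) := by
  refine FO_fex fun l => FO_fex fun l' => ?_
  refine FO_ex (B := fun M S v z => ∃ z', pt S l z (v 0) ∧ pt S l' z' (v 1) ∧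
    nr (dl S) τ (z, l) (z', l')) ?_
  refine FO_ex (B := fun M S v z' => pt S l (v 2) (v 0) ∧ pt S l' z' (v 1) ∧
    nr (dl S) τ (v 2, l) (z', l')) ?_
  exact FO_and (FRM_pt l (FO_v 2) (FO_v 0)) (FO_and (FRM_pt l' (FO_v 3) (FO_v 1))
    (FRM_nr τ l l' (FO_v 2) (FO_v 3)))

/-- in a code, `EXP_D` is given by the positions -/
theorem EXP_pos {ι M : Type} {S : (LP (ι ⊕ Fin 4)).Structure M} {τ₀ : Typ} (hS : Frame S τ₀)
    (τ : Typ) {l l' : Fin 4} {z z' x y : M} (h : pt S l z x) (h' : pt S l' z' y) :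
    EXP_D S τ x y ↔ nr (dl S) τ (z, l) (z', l') := by
  constructor
  · rintro ⟨m, m', w, w', h1, h2, h3⟩
    have e1 : m = l := hS.unq x m l (hS.lvl m w x h1).2 (hS.lvl l z x h).2
    have e2 : m' = l' := hS.unq y m' l' (hS.lvl m' w' y h2).2 (hS.lvl l' z' y h').2
    subst e1 e2
    have e3 := hS.inj m w z x h1 h
    have e4 := hS.inj m' w' z' y h2 h'
    subst e3 e4
    exact h3
  · intro h1
    exact ⟨l, l', z, z', h, h', h1⟩

section

variable (ι κ : Type) (c₀ : κ)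

/-- `lt true` is the order, `lt false` is the relation `c₀` -/
def EXP_rel (ι κ : Type) (c₀ : κ) : ∀ n, Sy ι n → Sm ι κ n
  | _, Sy.un i => Sm.un i
  | _, Sy.lt true => Sm.lt
  | _, Sy.lt false => Sm.rl c₀

/-- the map of languages -/
def EXP_hom : LP ι →ᴸ LM ι κ := ⟨fun n f => Empty.elim f, fun n R => EXP_rel ι κ c₀ n R⟩

/-- the reduct -/
@[instance_reducible]
def EXP_red {M : Type} (S : (LM ι κ).Structure M) : (LP ι).Structure M where
  funMap := fun {n} f _ => Empty.elim f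
  RelMap := fun {n} R v => S.RelMap (EXP_rel ι κ c₀ n R) v

/-- the expansion by the relations `D c`, `c ≠ c₀` -/
@[instance_reducible]
def EXP_add (D : κ → ∀ M : Type, (LP ι).Structure M → M → M → Prop) {M : Type}
    (S : (LP ι).Structure M) : (LM ι κ).Structure M where
  funMap := fun {n} f _ => Empty.elim f
  RelMap := fun {n} R => match n, R with
    | _, .un i => fun v => us S i (v 0)
    | _, .lt => fun v => ls S true (v 0) (v 1)
    | _, .rl c => fun v => D c M S (v 0) (v 1)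

variable {ι κ}

theorem EXP_red_add {D : κ → ∀ M : Type, (LP ι).Structure M → M → M → Prop} {M : Type}
    (S : (LP ι).Structure M) (h : ∀ x y, D c₀ M S x y ↔ ls S false x y) :
    EXP_red ι κ c₀ (EXP_add ι κ D S) = S := by
  refine FirstOrder.Language.Structure.ext ?_ ?_
  · funext n f
    exact Empty.elim f
  · funext n R v
    apply propext
    revert v
    change ∀ v, (EXP_add ι κ D S).RelMap (EXP_rel ι κ c₀ n R) v ↔ S.RelMap R v
    intro v
    have R' : Sy ι n := R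
    cases R with
    | un i =>
      show us S i (v 0) ↔ _
      have h1 : v = ![v 0] := by
        funext k
        rw [Subsingleton.elim k 0]
        rfl
      rw [h1]
      exact Iff.rfl
    | lt b =>
      have h1 : v = ![v 0, v 1] := by
        funext k
        fin_cases k <;> rfl
      cases b with
      | true =>
        show ls S true (v 0) (v 1) ↔ _
        rw [h1]
        exact Iff.rfl
      | false =>
        show D c₀ M S (v 0) (v 1) ↔ _
        rw [h, h1]
        exact Iff.rfl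

theorem EXP_model (T : (LP ι).Theory) {M : Type} (S : (LM ι κ).Structure M) [Nonempty M] :
    @FirstOrder.Language.Theory.Model (LM ι κ) M S ((EXP_hom ι κ c₀).onTheory T) ↔
      @FirstOrder.Language.Theory.Model (LP ι) M (EXP_red ι κ c₀ S) T := by
  let _ := S
  let _ := EXP_red ι κ c₀ S
  have : (EXP_hom ι κ c₀).IsExpansionOn M :=
    { map_onFunction := fun {n} f _ => Empty.elim f
      map_onRelation := fun {n} R v => rfl }
  exact LHom.onTheory_model (EXP_hom ι κ c₀) T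

/-- the axiom `R_c(x, y) ↔ ψ(x, y)` -/
def EXP_ax (c : κ) (ψ : (LP ι).BoundedFormula Empty 2) : (LM ι κ).Sentence :=
  ((BoundedFormula.rel (L := LM ι κ) (α := Empty) (n := 2) (Sm.rl c : Sm ι κ 2)
    (fun k => Term.var (Sum.inr k))).iff ((EXP_hom ι κ c₀).onBoundedFormula ψ)).alls

theorem EXP_real (c : κ) (ψ : (LP ι).BoundedFormula Empty 2)
    (D : ∀ M : Type, (LP ι).Structure M → M → M → Prop)
    (hψ : ∀ (M : Type) (S : (LP ι).Structure M) (v : Fin 2 → M),
      @BoundedFormula.Realize (LP ι) M S Empty 2 ψ default v ↔ D M S (v 0) (v 1))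
    {M : Type} (S : (LM ι κ).Structure M) :
    @FirstOrder.Language.Sentence.Realize (LM ι κ) M S (EXP_ax c₀ c ψ) ↔
      ∀ x y, mr S c x y ↔ D M (EXP_red ι κ c₀ S) x y := by
  let _ := S
  let _ := EXP_red ι κ c₀ S
  have : (EXP_hom ι κ c₀).IsExpansionOn M :=
    { map_onFunction := fun {n} f _ => Empty.elim f
      map_onRelation := fun {n} R v => rfl }
  have h1 : @FirstOrder.Language.Sentence.Realize (LM ι κ) M S (EXP_ax c₀ c ψ) ↔
      ∀ v : Fin 2 → M, mr S c (v 0) (v 1) ↔ D M (EXP_red ι κ c₀ S) (v 0) (v 1) := by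
    unfold EXP_ax
    show BoundedFormula.Realize _ default default ↔ _
    have h0 : ((default : Fin 0 → M)) = (default : Fin 0 → M) := rfl
    rw [show (BoundedFormula.Realize (((BoundedFormula.rel (L := LM ι κ) (α := Empty) (n := 2)
      (Sm.rl c : Sm ι κ 2) (fun k => Term.var (Sum.inr k))).iff
        ((EXP_hom ι κ c₀).onBoundedFormula ψ)).alls) (default : Empty → M) (default : Fin 0 → M)) ↔
      Formula.Realize (((BoundedFormula.rel (L := LM ι κ) (α := Empty) (n := 2)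
      (Sm.rl c : Sm ι κ 2) (fun k => Term.var (Sum.inr k))).iff
        ((EXP_hom ι κ c₀).onBoundedFormula ψ)).alls) (default : Empty → M) from Iff.rfl]
    rw [BoundedFormula.realize_alls]
    refine forall_congr' fun v => ?_
    rw [BoundedFormula.realize_iff, LHom.realize_onBoundedFormula, hψ]
    refine iff_congr ?_ Iff.rfl
    have h2 : (fun k : Fin 2 => v k) = ![v 0, v 1] := by
      funext k
      fin_cases k <;> rfl
    show S.RelMap (n := 2) (Sm.rl c : Sm ι κ 2) (fun k : Fin 2 => v k) ↔ _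
    rw [h2]
    exact Iff.rfl
  rw [h1]
  constructor
  · intro h x y
    exact h ![x, y]
  · intro h v
    exact h _ _

end

theorem EXP_dl_inv {ι M N : Type} {S : (LP ι).Structure M} {S' : (LP ι).Structure N}
    {ψ : (LP ι).BoundedFormula Empty 2} {D : ∀ M : Type, (LP ι).Structure M → M → M → Prop}
    (hψ : ∀ (M : Type) (S : (LP ι).Structure M) (v : Fin 2 → M),
      @BoundedFormula.Realize (LP ι) M S Empty 2 ψ default v ↔ D M S (v 0) (v 1))
    {e : M ≃ N} (he : Pool.Agent.Helper6.Str.RelIso S S' e) (x y : M) :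
    D M S x y ↔ D N S' (e x) (e y) := by
  let f : @FirstOrder.Language.Equiv (LP ι) M N S S' :=
    @FirstOrder.Language.Equiv.mk (LP ι) M N S S' e (fun f _ => Empty.elim f)
      (fun {n} R v => (he n R v).symm)
  let _ := S
  let _ := S'
  have h1 := StrongHomClass.realize_boundedFormula f (φ := ψ) (v := (default : Empty → M))
    (xs := ![x, y])
  have h2 : (f ∘ ![x, y] : Fin 2 → N) = ![e x, e y] := by
    funext k
    fin_cases k <;> rfl
  have h3 : (f ∘ (default : Empty → M) : Empty → N) = default := Subsingleton.elim _ _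
  rw [h2, h3] at h1
  rw [hψ N S' ![e x, e y], hψ M S ![x, y] ] at h1
  exact h1.symm

theorem EXP_nlt {ι M : Type} {S : (LP (ι ⊕ Fin 4)).Structure M} (τ : Typ) {p q : M}
    (hp : lv S 0 p) (hq : lv S 0 q) (l l' : Fin 4) :
    nlt (ls (dec S)) τ (⟨p, hp⟩, l) (⟨q, hq⟩, l') ↔ nlt (dl S) τ (p, l) (q, l') := by
  unfold nlt
  simp only [Subtype.mk.injEq]
  exact Iff.rfl

theorem EXP_nr {ι M : Type} {S : (LP (ι ⊕ Fin 4)).Structure M} (τ : Typ) {p q : M}
    (hp : lv S 0 p) (hq : lv S 0 q) (l l' : Fin 4) :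
    nr (ls (dec S)) τ (⟨p, hp⟩, l) (⟨q, hq⟩, l') ↔ nr (dl S) τ (p, l) (q, l') := by
  unfold nr
  simp only [Subtype.mk.injEq, ne_eq]
  exact Iff.rfl

theorem EXP_ex {ι M : Type} {S : (LP (ι ⊕ Fin 4)).Structure M} {τ₀ : Typ} (hS : Frame S τ₀)
    (x : M) : ∃ l z, pt S l z x := by
  obtain ⟨l, hl⟩ := hS.lev x
  exact ⟨l, hS.sur l x hl⟩

theorem EXP_age {ι κ M : Type} {K : Cla κ} {c₀ : κ} {τ : κ → Typ} (hA : AgeNM K c₀ τ)
    {S : (LP (ι ⊕ Fin 4)).Structure M} (hS : Frame S (τ c₀)) (h2 : Two (dec S)) :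
    AgeM K (ls S true) (fun c => EXP_D S (τ c)) := by
  intro m z hz
  choose l p hp using fun i => EXP_ex hS (z i)
  have hp0 : ∀ i, lv S 0 (p i) := fun i => (hS.lvl _ _ _ (hp i)).1
  have h1 := hA {z : M // lv S 0 z} (ls (dec S)) (fun b => h2 b) m
    (fun i => (⟨p i, hp0 i⟩, l i)) (fun i j hij => (EXP_nlt _ _ _ _ _).2
      ((hS.ord _ _ _ _ _ _ (hp i) (hp j)).1 (hz i j hij)))
  have h3 : (fun c i j => nr (ls (dec S)) (τ c) (⟨p i, hp0 i⟩, l i) (⟨p j, hp0 j⟩, l j)) =
      fun c i j => EXP_D S (τ c) (z i) (z j) := by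
    funext c i j
    exact propext ((EXP_nr _ _ _ _ _).trans (EXP_pos hS (τ c) (hp i) (hp j)).symm)
  rw [← h3]
  exact h1

theorem EXP_iso_red {ι κ M N : Type} (c₀ : κ) {S : (LM ι κ).Structure M}
    {S' : (LM ι κ).Structure N} (h : Iso S S') : Iso (EXP_red ι κ c₀ S) (EXP_red ι κ c₀ S') := by
  obtain ⟨g, hg⟩ := h
  exact ⟨g, fun n R v => hg n (EXP_rel ι κ c₀ n R) v⟩

/-- [EXP] -/
theorem thm_EXP : St_EXP := by
  intro hREC κ hκ K c₀ τ hA hV ι hι T hT
  choose ψ hψ using fun c => EXP_def ι (τ c)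
  let D : κ → ∀ M : Type, (LP (ι ⊕ Fin 4)).Structure M → M → M → Prop :=
    fun c M S x y => EXP_D S (τ c) x y
  let T' : (LM (ι ⊕ Fin 4) κ).Theory :=
    (EXP_hom (ι ⊕ Fin 4) κ c₀).onTheory T ∪ Set.range (fun c => EXP_ax c₀ c (ψ c))
  have key : ∀ S : (LM (ι ⊕ Fin 4) κ).Structure ℕ, S ∈ ModF T' ↔
      EXP_red (ι ⊕ Fin 4) κ c₀ S ∈ ModF T ∧
        ∀ c x y, mr S c x y ↔ EXP_D (EXP_red (ι ⊕ Fin 4) κ c₀ S) (τ c) x y := by
    intro S
    constructor
    · intro hS
      have hS' : @FirstOrder.Language.Theory.Model (LM (ι ⊕ Fin 4) κ) ℕ S T' := hS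
      refine ⟨(EXP_model c₀ T S).1 ⟨fun φ hφ => hS'.realize_of_mem φ (Or.inl hφ)⟩, fun c => ?_⟩
      exact (EXP_real c₀ c (ψ c) (D c) (hψ c) S).1 (hS'.realize_of_mem _ (Or.inr ⟨c, rfl⟩))
    · rintro ⟨h1, h2⟩
      refine ⟨fun φ hφ => ?_⟩
      rcases hφ with hφ | ⟨c, rfl⟩
      · exact ((EXP_model c₀ T S).2 h1).realize_of_mem φ hφ
      · exact (EXP_real c₀ c (ψ c) (D c) (hψ c) S).2 (h2 c)
  have hself : ∀ S : (LP (ι ⊕ Fin 4)).Structure ℕ, Frame S (τ c₀) →
      ∀ x y, D c₀ ℕ S x y ↔ ls S false x y := by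
    intro S hS x y
    obtain ⟨l, z, h1⟩ := EXP_ex hS x
    obtain ⟨l', z', h2⟩ := EXP_ex hS y
    exact (EXP_pos hS (τ c₀) h1 h2).trans (hS.rel _ _ _ _ _ _ h1 h2).symm
  have hV' := hV (ι ⊕ Fin 4) inferInstance T' (fun S hS => by
    obtain ⟨h1, h2⟩ := (key S).1 hS
    have h3 := hT _ h1
    refine ⟨h3.lin, ?_⟩
    intro m z hz
    have h4 := EXP_age hA h3 (hREC ι ℕ (τ c₀) _ h3).1 m z hz
    have h5 : (fun c i j => EXP_D (EXP_red (ι ⊕ Fin 4) κ c₀ S) (τ c) (z i) (z j)) =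
        fun c i j => mr S c (z i) (z j) := by
      funext c i j
      exact propext (h2 c _ _).symm
    rw [← h5]
    exact h4)
  rcases hV' with ⟨g, hg⟩ | ⟨f, h1, h2, h3⟩
  · refine Or.inl ⟨fun n => EXP_red (ι ⊕ Fin 4) κ c₀ (g n), fun N hN => ?_⟩
    have h4 := EXP_red_add (D := D) c₀ N (hself N (hT N hN))
    obtain ⟨n, hn⟩ := hg (EXP_add (ι ⊕ Fin 4) κ D N) ((key _).2 (by
      rw [h4]
      exact ⟨hN, fun c x y => Iff.rfl⟩))
    have h5 := EXP_iso_red c₀ hn
    rw [h4] at h5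
    exact ⟨n, h5⟩
  · refine Or.inr ⟨fun x => EXP_red (ι ⊕ Fin 4) κ c₀ (f x), fun x => ((key _).1 (h1 x)).1,
      fun x y h => h2 x y ?_, fun n R a => h3 n (EXP_rel (ι ⊕ Fin 4) κ c₀ n R) a⟩
    obtain ⟨e, he⟩ := h
    refine ⟨e, fun n R v => ?_⟩
    cases R with
    | un i => exact he 1 (Sy.un i) v
    | lt => exact he 2 (Sy.lt true) v
    | rl c =>
      have h4 := EXP_dl_inv (D := D c) (hψ c) he (v 0) (v 1)
      have h5 := ((key _).1 (h1 x)).2 c (v 0) (v 1)
      have h6 := ((key _).1 (h1 y)).2 c (e (v 0)) (e (v 1))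
      have h7 : v = ![v 0, v 1] := by
        funext k
        fin_cases k <;> rfl
      have h8 : e ∘ v = ![e (v 0), e (v 1)] := by
        funext k
        fin_cases k <;> rfl
      rw [h8]
      rw [h7]
      exact (h5.trans h4).trans h6.symm

end Pool.Agent.OGM
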