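import Pool.Agent.OGM.Defs
import Pool.Agent.OGD.OGA

/-!
OGM: OGB, classes all of whose reducts to one relation have bounded grid rank (helper23; as OGD/OGA).
-/

set_option autoImplicit false
set_option linter.unusedVariables false

namespace Pool.Agent.OGM

open FirstOrder.Language Set
open scoped FirstOrder

theorem thm_OGB : St_OGB := by
  classical
  intro hT4 κ hκ K hK ι hι T hT
  choose k hk using hK
  refine hT4 ι κ hι hκ T k fun S hS => ?_
  obtain ⟨hlin, hage⟩ := hT S hS
  refine ⟨hlin, fun c => ?_⟩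
  rintro ⟨I, J, hI, hJ, hR⟩
  choose y hyJ hy using hR
  choose x hxI hx using hy
  have hfin : (Set.range (fun p : Fin (k c) × Fin (k c) × Fin (k c) => y p.1 p.2.1 p.2.2) ∪
      Set.range (fun p : {p : Fin (k c) × Fin (k c) × Fin (k c) × Fin (k c) // p.2.2.1 ≠ p.2.2.2} =>
        x p.1.1 p.1.2.1 p.1.2.2.1 p.1.2.2.2 p.2)).Finite :=
    (Set.finite_range _).union (Set.finite_range _)
  obtain ⟨m, z, hz, hsur⟩ := OGD.OGA_enum (ml S) hlin hfin.toFinset
  have hlt : ∀ i j, ml S (z i) (z j) → i < j := by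
    intro i j hij
    rcases lt_trichotomy i j with h | h | h
    · exact h
    · rw [h] at hij
      exact absurd hij (hlin.1 _)
    · exact absurd (hlin.2.1 _ _ _ hij (hz j i h)) (hlin.1 _)
  have hys : ∀ a b i, ∃ t, z t = y a b i := fun a b i =>
    hsur _ (by rw [Set.Finite.mem_toFinset]; exact Or.inl ⟨(a, b, i), rfl⟩)
  have hxs : ∀ a b i j (h : i ≠ j), ∃ t, z t = x a b i j h := fun a b i j h =>
    hsur _ (by rw [Set.Finite.mem_toFinset]; exact Or.inr ⟨⟨(a, b, i, j), h⟩, rfl⟩)
  choose y' hy' using hys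
  choose x' hx' using hxs
  refine hk c m (fun i j => mr S c (z i) (z j)) ⟨_, hage m z hz, rfl⟩
    ⟨fun a => {t | z t ∈ I a}, fun b => {t | z t ∈ J b}, ?_, ?_, ?_⟩
  · intro a b hab s hs t ht
    exact hlt _ _ (hI a b hab _ hs _ ht)
  · intro a b hab s hs t ht
    exact hlt _ _ (hJ a b hab _ hs _ ht)
  · intro a b
    refine ⟨y' a b, fun i => ?_, fun i j hij => ⟨x' a b i j hij, ?_, ?_⟩⟩
    · show z (y' a b i) ∈ J b
      rw [hy']
      exact hyJ a b i
    · show z (x' a b i j hij) ∈ I a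
      rw [hx']
      exact hxI a b i j hij
    · show ¬ (mr S c (z (x' a b i j hij)) (z (y' a b i)) ↔
        mr S c (z (x' a b i j hij)) (z (y' a b j)))
      rw [hx', hy', hy']
      exact hx a b i j hij

end Pool.Agent.OGM
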