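import Pool.Agent.GRK.ALL
import Pool.Agent.OGM.Defs

/-!
OGM: the positive half (`T4M`), from `GRK.thm_MAIN` (helper23).
-/

set_option autoImplicit false
set_option linter.unusedVariables false

namespace Pool.Agent.OGM

open FirstOrder.Language Set
open scoped FirstOrder
open Pool.Agent.WOM (CtT PerfT)
open Pool.Agent.PMC (rel)
open Pool.Agent.GRK (NoDv Hyp)
open Pool.Agent.Helper6.Str (PerfK CtblK Iso RelIso)
open VPF (ModF)

namespace PosM

/-- the formula of the order -/
def fl (ι κ : Type) : (LM ι κ).Formula (Fin 2) :=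
  Relations.formula₂ (L := LM ι κ) (Sm.lt : Sm ι κ 2) (Term.var 0) (Term.var 1)

/-- the formula of a binary relation -/
def fr (ι κ : Type) (c : κ) : (LM ι κ).Formula (Fin 2) :=
  Relations.formula₂ (L := LM ι κ) (Sm.rl c : Sm ι κ 2) (Term.var 0) (Term.var 1)

/-- the formula of a unary predicate -/
def fu (ι κ : Type) (i : ι) : (LM ι κ).Formula (Fin 1) :=
  Relations.formula₁ (L := LM ι κ) (Sm.un i : Sm ι κ 1) (Term.var 0)

variable {ι κ M : Type} (S : (LM ι κ).Structure M)

theorem real_fl (x y : M) :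
    @Formula.Realize (LM ι κ) M S (Fin 2) (fl ι κ) ![x, y] ↔ ml S x y := by
  let _ := S
  exact Formula.realize_rel₂

theorem real_fr (c : κ) (x y : M) :
    @Formula.Realize (LM ι κ) M S (Fin 2) (fr ι κ c) ![x, y] ↔ mr S c x y := by
  let _ := S
  exact Formula.realize_rel₂

theorem real_fu (i : ι) (x : M) :
    @Formula.Realize (LM ι κ) M S (Fin 1) (fu ι κ i) ![x] ↔ mu S i x := by
  let _ := S
  exact Formula.realize_rel₁

theorem rel_fl : @rel (LM ι κ) M S (fl ι κ) = ml S := by
  funext x y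
  exact propext (real_fl S x y)

theorem rel_fr (c : κ) : @rel (LM ι κ) M S (fr ι κ c) = mr S c := by
  funext x y
  exact propext (real_fr S c x y)

/-- a permutation which preserves the symbols is an automorphism -/
theorem aut (g : M ≃ M) (h2 : ∀ x y : M, ml S (g x) (g y) ↔ ml S x y)
    (h3 : ∀ (c : κ) (x y : M), mr S c (g x) (g y) ↔ mr S c x y)
    (h1 : ∀ (i : ι) (x : M), mu S i (g x) ↔ mu S i x) :
    ∃ h : @FirstOrder.Language.Equiv (LM ι κ) M M S S,
      ∀ x, (@FirstOrder.Language.Equiv.toEquiv (LM ι κ) M M S S h) x = g x := by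
  have hrel : ∀ (m : ℕ) (r : Sm ι κ m) (v : Fin m → M),
      S.RelMap (n := m) r (g ∘ v) ↔ S.RelMap (n := m) r v := ?_
  · exact ⟨@FirstOrder.Language.Equiv.mk (LM ι κ) M M S S g (fun f _ => Empty.elim f)
      (fun r v => hrel _ r v), fun x => rfl⟩
  intro m r v
  cases r with
  | un i =>
    have h4 : g ∘ v = ![g (v 0)] := by
      funext k
      fin_cases k
      rfl
    have h5 : v = ![v 0] := by
      funext k
      fin_cases k
      rfl
    rw [h4]
    rw [h5]
    exact h1 i (v 0)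
  | lt =>
    have h4 : g ∘ v = ![g (v 0), g (v 1)] := by
      funext k
      fin_cases k <;> rfl
    have h5 : v = ![v 0, v 1] := by
      funext k
      fin_cases k <;> rfl
    rw [h4]
    rw [h5]
    exact h2 (v 0) (v 1)
  | rl c =>
    have h4 : g ∘ v = ![g (v 0), g (v 1)] := by
      funext k
      fin_cases k <;> rfl
    have h5 : v = ![v 0, v 1] := by
      funext k
      fin_cases k <;> rfl
    rw [h4]
    rw [h5]
    exact h3 c (v 0) (v 1)

/-- the order has no division of size `2` -/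
theorem nodv_lt {lt : M → M → Prop} (htr : ∀ x y z, lt x y → lt y z → lt x z) :
    NoDv lt lt 2 := by
  rintro ⟨I, J, hI, hJ, h⟩
  obtain ⟨y, hy, hy'⟩ := h 0 1
  obtain ⟨x, hx, hxy⟩ := hy' 0 1 (by decide)
  obtain ⟨z, hz, hz'⟩ := h 1 0
  obtain ⟨w, hw, hwz⟩ := hz' 0 1 (by decide)
  have h1 : ∃ y ∈ J 1, ¬ lt x y := by
    by_contra hn
    push Not at hn
    exact hxy ⟨fun _ => hn _ (hy 1), fun _ => hn _ (hy 0)⟩
  have h2 : ∃ z ∈ J 0, lt w z := by
    by_contra hn
    push Not at hn
    exact hwz ⟨fun h => absurd h (hn _ (hz 0)), fun h => absurd h (hn _ (hz 1))⟩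
  obtain ⟨y', hy1, hy2⟩ := h1
  obtain ⟨z', hz1, hz2⟩ := h2
  exact hy2 (htr x w y' (hI 0 1 (by decide) x hx w hw)
    (htr w z' y' hz2 (hJ 0 1 (by decide) z' hz1 y' hy1)))

/-- the formulas of the order and the binary relations -/
def fo (ι κ : Type) : Option κ → (LM ι κ).Formula (Fin 2)
  | none => fl ι κ
  | some c => fr ι κ c

theorem hyp (k : κ → ℕ) (e : ℕ → Option κ) (he : Function.Surjective e)
    (hl : OGD.Lin (ml S)) (hk : ∀ c, NoDv (ml S) (mr S c) (k c)) :
    @Hyp (LM ι κ) M S (fl ι κ) (fun i => fo ι κ (e i)) := by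
  obtain ⟨hi, ht, htot⟩ := hl
  have e1 := rel_fl S
  have e2 := rel_fr S
  refine @Hyp.mk (LM ι κ) M S _ _ ?_ ?_ ?_ ?_ ?_
  · rw [e1]
    exact hi
  · rw [e1]
    exact ht
  · rw [e1]
    exact htot
  · intro i
    show ∃ k, NoDv (@rel (LM ι κ) M S (fl ι κ)) (@rel (LM ι κ) M S (fo ι κ (e i))) k
    cases h : e i with
    | none =>
      refine ⟨2, ?_⟩
      show NoDv (@rel (LM ι κ) M S (fl ι κ)) (@rel (LM ι κ) M S (fl ι κ)) 2
      rw [e1]
      exact nodv_lt ht
    | some c =>
      refine ⟨k c, ?_⟩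
      show NoDv (@rel (LM ι κ) M S (fl ι κ)) (@rel (LM ι κ) M S (fr ι κ c)) (k c)
      rw [e1, e2]
      exact hk c
  · intro g hg1 hg2 hg3
    rw [e1] at hg1
    refine aut S g hg1 (fun c => ?_) (fun i x => ?_)
    · obtain ⟨i, hi'⟩ := he (some c)
      have h1 := hg2 i
      rw [hi'] at h1
      have h2 : ∀ x y, @rel (LM ι κ) M S (fr ι κ c) (g x) (g y) ↔
          @rel (LM ι κ) M S (fr ι κ c) x y := h1
      rw [e2] at h2
      exact h2
    · rw [← real_fu S, ← real_fu S]
      exact hg3 _ x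

theorem countable_sm (ι κ : Type) [Countable ι] [Countable κ] (n : ℕ) : Countable (Sm ι κ n) := by
  let f : Sm ι κ n → ι ⊕ Option κ := fun s => match n, s with
    | _, Sm.un i => Sum.inl i
    | _, Sm.lt => Sum.inr none
    | _, Sm.rl c => Sum.inr (some c)
  refine Function.Injective.countable (f := f) ?_
  intro s t hst
  cases s <;> cases t
  · exact congrArg Sm.un (Sum.inl.inj hst)
  · rfl
  · exact absurd (Sum.inr.inj hst) (by simp)
  · exact absurd (Sum.inr.inj hst) (by simp)
  · exact congrArg Sm.rl (Option.some.inj (Sum.inr.inj hst))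

end PosM

/-- the positive half: bounded grid rank for every binary relation -/
theorem thm_T4M : T4M := by
  intro ι κ hι hκ T k hT
  have hf : ∀ n, IsEmpty ((LM ι κ).Functions n) := fun n => (inferInstance : IsEmpty Empty)
  have hc : Countable (LM ι κ).Symbols := by
    have h1 : Countable (Σ m, (LM ι κ).Functions m) := by
      have : ∀ m, Countable ((LM ι κ).Functions m) := fun m => (inferInstance : Countable Empty)
      infer_instance
    have h2 : Countable (Σ m, (LM ι κ).Relations m) := by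
      have : ∀ m, Countable ((LM ι κ).Relations m) := fun m => PosM.countable_sm ι κ m
      infer_instance
    exact (inferInstance : Countable ((Σ m, (LM ι κ).Functions m) ⊕ (Σ m, (LM ι κ).Relations m)))
  obtain ⟨e, he⟩ := exists_surjective_nat (Option κ)
  have hm := GRK.thm_MAIN (LM ι κ) hc hf T (PosM.fl ι κ) (fun i => PosM.fo ι κ (e i))
    (fun S hS => PosM.hyp S k e he (hT S hS).1 (hT S hS).2)
  rcases hm with ⟨g, hg⟩ | ⟨f, hf1, hf2, hf3, -⟩
  · left
    refine ⟨g, fun S hS => ?_⟩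
    obtain ⟨n, hn⟩ := hg S hS
    exact ⟨n, GRK.OT4.iso_of_equiv hn⟩
  · right
    exact ⟨f, hf1, fun x y hxy => hf2 x y (GRK.OT4.equiv_of_iso hf hxy), hf3⟩

end Pool.Agent.OGM
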