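import Pool.Agent.OGM.Defs
import Pool.Agent.PMC.SHP

/-!
OGM module SHM (from OGD/SHQ): assembly of the sharp half.
-/

set_option autoImplicit false
set_option linter.unusedVariables false

namespace Pool.Agent.OGM

open FirstOrder.Language Set
open scoped FirstOrder
open Pool.Agent.PMC (Sy LP ls us Two Bin SHP_model SHP_copy)
open Pool.Agent.OGD (Lin Her Bdd Age Phi Cel Typ Good nlt nr AgeN lv pt dl dec enc Frame)
open Pool.Agent.Helper6.Str (PerfK CtblK Iso RelIso Code toStr)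
open VPF (ModF)

private theorem SHM_countable (ι : Type) [Countable ι] (n : ℕ) : Countable (Sy ι n) := by
  have h : Function.Injective
      (fun s : Sy ι n => (match s with | .un i => Sum.inl i | .lt b => Sum.inr b : ι ⊕ Bool)) := by
    intro s s' h
    cases s <;> cases s' <;> simp_all
  exact h.countable

private theorem SHM_bin (ι : Type) [Countable ι] : Bin (LP ι) :=
  ⟨fun n => ⟨fun f => Empty.elim f⟩, fun n h1 h2 => ⟨fun R => by
    have R' : Sy ι n := R
    cases R' with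
    | un i => exact h1 rfl
    | lt b => exact h2 rfl⟩, fun n => SHM_countable ι n⟩

theorem thm_SHM : St_SHM := by
  intro hFRM hTRN hCOE hREC hFUN hDMS hMPK τ hτ hV ι hι T hT
  obtain ⟨F, hF⟩ := hFRM ι τ
  choose tr htr using hTRN ι
  let T' : (LP (ι ⊕ Fin 4)).Theory := F ∪ tr '' T
  have hfun : ∀ n, IsEmpty ((LP ι).Functions n) := fun n => ⟨fun f => Empty.elim f⟩
  have hfun' : ∀ n, IsEmpty ((LP (ι ⊕ Fin 4)).Functions n) := fun n => ⟨fun f => Empty.elim f⟩
  have key : ∀ S : (LP (ι ⊕ Fin 4)).Structure ℕ, S ∈ ModF T' ↔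
      Frame S τ ∧ @FirstOrder.Language.Theory.Model (LP ι) {z : ℕ // lv S 0 z} (dec S) T := by
    intro S
    constructor
    · intro hS
      have hS' : @FirstOrder.Language.Theory.Model (LP (ι ⊕ Fin 4)) ℕ S T' := hS
      have h1 : Frame S τ := by
        refine (hF ℕ S).1 ⟨fun φ hφ => ?_⟩
        exact hS'.realize_of_mem φ (Or.inl hφ)
      refine ⟨h1, ?_⟩
      let _ := dec S
      exact ⟨fun φ hφ => (htr φ ℕ S).1 (hS'.realize_of_mem _ (Or.inr ⟨φ, hφ, rfl⟩))⟩
    · rintro ⟨h1, h2⟩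
      have h5 : @FirstOrder.Language.Theory.Model (LP (ι ⊕ Fin 4)) ℕ S F := (hF ℕ S).2 h1
      refine ⟨fun φ hφ => ?_⟩
      rcases hφ with hφ | ⟨σ, hσ, rfl⟩
      · exact h5.realize_of_mem φ hφ
      · exact (htr σ ℕ S).2 (h2.realize_of_mem σ hσ)
  have hinf : ∀ S : (LP (ι ⊕ Fin 4)).Structure ℕ, Frame S τ → Infinite {z : ℕ // lv S 0 z} := by
    intro S hS
    obtain ⟨e, -⟩ := (hREC ι ℕ τ S hS).2
    by_contra hcon
    rw [not_infinite_iff_finite] at hcon
    have h1 : Finite ({z : ℕ // lv S 0 z} × Fin 4) := inferInstance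
    have h2 : Finite ℕ := Finite.of_equiv _ e
    exact not_finite ℕ
  rcases hV ι hι T' (fun S hS => ((key S).1 hS).1) with hc | hp
  · left
    obtain ⟨g, hg⟩ := hc
    have hex : ∀ n, ∃ S' : (LP ι).Structure ℕ, Infinite {z : ℕ // lv (g n) 0 z} →
        Iso (dec (g n)) S' := by
      intro n
      by_cases h : Infinite {z : ℕ // lv (g n) 0 z}
      · obtain ⟨S', hS'⟩ := SHP_copy hfun (dec (g n))
        exact ⟨S', fun _ => hS'⟩
      · exact ⟨@toStr (LP ι) hfun (fun _ => false), fun h' => absurd h' h⟩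
    choose g' hg' using hex
    refine ⟨g', fun N hN => ?_⟩
    obtain ⟨h1, h2⟩ := hCOE ι ℕ τ N hτ (hT N hN)
    obtain ⟨S, hS⟩ := SHP_copy hfun' (enc τ N)
    have h3 : Frame S τ := (hF ℕ S).1 (SHP_model hfun' hS F ((hF _ _).2 h1))
    have h4 : Iso (dec S) N := ((hFUN ι (ℕ × Fin 4) ℕ τ).2 _ _ hS).symm.trans h2
    have h5 : S ∈ ModF T' := (key S).2 ⟨h3, SHP_model hfun h4.symm T hN⟩
    obtain ⟨n, hn⟩ := hg S h5
    have h6 : g n ∈ ModF T' := SHP_model hfun' hn T' h5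
    have h7 := hinf (g n) ((key (g n)).1 h6).1
    exact ⟨n, h4.symm.trans (((hFUN ι ℕ ℕ τ).2 _ _ hn).trans (hg' n h7))⟩
  · right
    obtain ⟨f, hf1, hf2, hf3⟩ := hp
    obtain ⟨G, hG, hG'⟩ := hDMS ι τ f (fun x => ((key (f x)).1 (hf1 x)).1) hf3
    refine hMPK (LP ι) (SHM_bin ι) (ModF T) G hG (fun x => ?_) (fun x y hxy => ?_)
    · exact SHP_model hfun (hG' x) T ((key (f x)).1 (hf1 x)).2
    · refine hf2 x y ?_
      have h1 : Iso (dec (f x)) (dec (f y)) := (hG' x).trans (hxy.trans (hG' y).symm)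
      have h2 := (hFUN ι _ _ τ).1 _ _ h1
      exact (hREC ι ℕ τ (f x) ((key (f x)).1 (hf1 x)).1).2.symm.trans
        (h2.trans (hREC ι ℕ τ (f y) ((key (f y)).1 (hf1 y)).1).2)

end Pool.Agent.OGM
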