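import Pool.Agent.OGM.UNC
import Pool.Agent.OGM.EXP
import Pool.Agent.OGM.SHM
import Pool.Agent.OGM.OGB
import Pool.Agent.OGD.Ren
import Pool.Agent.OGD.GRW
import Pool.Agent.OGD.FRM
import Pool.Agent.OGD.TRN
import Pool.Agent.OGD.COE
import Pool.Agent.OGD.REC
import Pool.Agent.OGD.FUN
import Pool.Agent.OGD.DMS

/-!
# Vaught's conjecture for universal classes of ordered binary structures: a dichotomy

A class `K` of finite structures `(A, <, R_c)_{c : κ}` with a linear order `<` and countably many binary
relations `R_c` is given by its members on `{0, ..., n - 1}` with the natural order; `K` is closed under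
substructures, and closed (no condition if `κ` is finite).  We consider all first-order theories of
structures whose finite substructures belong to `K`, with arbitrarily many unary predicates (colours).

* If the classes of ordered digraphs `(A, <, R_c)` have bounded grid rank (equivalently, bounded
  twin-width) then Vaught's conjecture holds for these theories.
* In particular it holds if for every `c` there is `n` such that less than `n!` relations on
  `{0, ..., 4 n - 1}` occur as `R_c`; so it holds for classes of at most exponential growth.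
* Otherwise Vaught's conjecture for these theories is equivalent to Vaught's conjecture for all
  first-order theories in countable languages (the frozen statement `S14759`).
-/

set_option autoImplicit false

namespace Pool.Agent.OGM.ResM

open Set FirstOrder

/-! ### Universal classes of ordered binary structures -/

/-- A class of finite ordered structures with binary relations `R_c`, `c : κ`: for each `n` a set of
families of relations on `{0, ..., n - 1}`, which is ordered by the natural order. -/
abbrev OrderedClass (κ : Type) : Type := (n : ℕ) → Set (κ → Fin n → Fin n → Prop)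

/-- `K` is closed under substructures. -/
def Hereditary {κ : Type} (K : OrderedClass κ) : Prop :=
  ∀ (m n : ℕ) (f : Fin m → Fin n), StrictMono f →
    ∀ r ∈ K n, (fun c i j => r c (f i) (f j)) ∈ K m

/-- `K` is closed: a structure belongs to `K` if this is so for its reducts to finitely many relations
(always true if `κ` is finite). -/
def Closed {κ : Type} (K : OrderedClass κ) : Prop :=
  ∀ (n : ℕ) (r : κ → Fin n → Fin n → Prop),
    (∀ s : Finset κ, ∃ r' ∈ K n, ∀ c ∈ s, r' c = r c) → r ∈ K n

/-- The relations which occur as `R_c`: a class of finite ordered digraphs. -/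
def reduct {κ : Type} (K : OrderedClass κ) (c : κ) (n : ℕ) : Set (Fin n → Fin n → Prop) :=
  (fun r => r c) '' K n

/-- A rank-`k` division: there are sets `I 0 < ... < I (k - 1)` and `J 0 < ... < J (k - 1)` such that
every `J b` contains `k` elements whose traces `{x ∈ I a | r x y}` are pairwise different, for all
`a`. -/
def HasDivision {n : ℕ} (r : Fin n → Fin n → Prop) (k : ℕ) : Prop :=
  ∃ I J : Fin k → Set (Fin n),
    (∀ a b, a < b → ∀ x ∈ I a, ∀ y ∈ I b, x < y) ∧ (∀ a b, a < b → ∀ x ∈ J a, ∀ y ∈ J b, x < y) ∧
    ∀ a b, ∃ y : Fin k → Fin n, (∀ i, y i ∈ J b) ∧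
      ∀ i j, i ≠ j → ∃ x ∈ I a, ¬ (r x (y i) ↔ r x (y j))

/-- Bounded grid rank of a class of finite ordered digraphs: for some `k` no member has a rank-`k`
division. -/
def BoundedGridRank (D : (n : ℕ) → Set (Fin n → Fin n → Prop)) : Prop :=
  ∃ k, ∀ n, ∀ r ∈ D n, ¬ HasDivision r k

/-! ### Structures and Vaught's conjecture -/

/-- The symbol of the order, binary relation symbols indexed by `κ`, unary relation symbols indexed by
`ι`. -/
inductive Sym (ι κ : Type) : ℕ → Type
  | color (i : ι) : Sym ι κ 1
  | lt : Sym ι κ 2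
  | rel (c : κ) : Sym ι κ 2

/-- The language of ordered binary structures with colours. -/
def Lang (ι κ : Type) : FirstOrder.Language.{0, 0} := ⟨fun _ => Empty, Sym ι κ⟩

/-- The relation of the symbol `lt` is a strict linear order of `ℕ`, and all finite substructures for
this order and the relations of the symbols `rel c` belong to `K`. -/
def InClass {ι κ : Type} (K : OrderedClass κ) (S : (Lang ι κ).Structure ℕ) : Prop :=
  (∀ x, ¬ S.RelMap (n := 2) (Sym.lt : Sym ι κ 2) ![x, x]) ∧
  (∀ x y z, S.RelMap (n := 2) (Sym.lt : Sym ι κ 2) ![x, y] →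
    S.RelMap (n := 2) (Sym.lt : Sym ι κ 2) ![y, z] →
      S.RelMap (n := 2) (Sym.lt : Sym ι κ 2) ![x, z]) ∧
  (∀ x y, x ≠ y → S.RelMap (n := 2) (Sym.lt : Sym ι κ 2) ![x, y] ∨
    S.RelMap (n := 2) (Sym.lt : Sym ι κ 2) ![y, x]) ∧
  ∀ (m : ℕ) (z : Fin m → ℕ),
    (∀ i j, i < j → S.RelMap (n := 2) (Sym.lt : Sym ι κ 2) ![z i, z j]) →
    (fun c i j => S.RelMap (n := 2) (Sym.rel c : Sym ι κ 2) ![z i, z j]) ∈ K m

/-- The dichotomy for a theory (the conclusion of `S14759`): its models on `ℕ` fall into countably
many isomorphism classes, or a continuous map from Cantor space to these models has pairwise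
nonisomorphic values. -/
def Dich (L : FirstOrder.Language.{0, 0}) (T : L.Theory) : Prop :=
  (∃ g : ℕ → L.Structure ℕ, ∀ S : L.Structure ℕ,
      @FirstOrder.Language.Theory.Model L ℕ S T →
        ∃ n : ℕ, Nonempty (@FirstOrder.Language.Equiv L ℕ ℕ S (g n))) ∨
  (∃ f : (ℕ → Bool) → L.Structure ℕ,
      (∀ x : ℕ → Bool, @FirstOrder.Language.Theory.Model L ℕ (f x) T) ∧
      (∀ x y : ℕ → Bool,
          Nonempty (@FirstOrder.Language.Equiv L ℕ ℕ (f x) (f y)) → x = y) ∧
      (∀ (n : ℕ) (R : L.Relations n) (a : Fin n → ℕ),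
          IsClopen {x : ℕ → Bool | @FirstOrder.Language.Structure.RelMap L ℕ (f x) n R a}) ∧
      (∀ (n : ℕ) (F : L.Functions n) (a : Fin n → ℕ) (b : ℕ),
          IsOpen {x : ℕ → Bool | @FirstOrder.Language.Structure.funMap L ℕ (f x) n F a = b}))

/-- Vaught's conjecture for all first-order theories in countable languages (the frozen statement
`S14759`). -/
def FullVC : Prop :=
  ∀ (L : FirstOrder.Language.{0, 0}), Countable L.Symbols → ∀ (T : L.Theory), Dich L T

/-- Vaught's conjecture for `K`: the dichotomy for all first-order theories of ordered binary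
structures with countably many colours whose models on `ℕ` are in the class. -/
def VC {κ : Type} (K : OrderedClass κ) : Prop :=
  ∀ (ι : Type), Countable ι → ∀ T : (Lang ι κ).Theory,
    (∀ S : (Lang ι κ).Structure ℕ,
      @FirstOrder.Language.Theory.Model (Lang ι κ) ℕ S T → InClass K S) → Dich (Lang ι κ) T

/-! ## Proof -/

/-- the names of the symbols -/
def names (ι κ : Type) : ∀ n, (Lang ι κ).Relations n ≃ (OGM.LM ι κ).Relations n := fun n =>
  { toFun := fun R => match n, R with
      | _, Sym.color i => OGM.Sm.un i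
      | _, Sym.lt => OGM.Sm.lt
      | _, Sym.rel c => OGM.Sm.rl c
    invFun := fun R => match n, R with
      | _, OGM.Sm.un i => Sym.color i
      | _, OGM.Sm.lt => Sym.lt
      | _, OGM.Sm.rl c => Sym.rel c
    left_inv := by
      intro R
      cases R <;> rfl
    right_inv := by
      intro R
      cases R <;> rfl }

theorem lang_rel (ι κ : Type) : ∀ n, IsEmpty ((Lang ι κ).Functions n) :=
  fun n => ⟨fun x => Empty.elim x⟩

theorem lm_rel (ι κ : Type) : ∀ n, IsEmpty ((OGM.LM ι κ).Functions n) :=
  fun n => ⟨fun x => Empty.elim x⟩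

open VPF (ModF) in
theorem dich_iff {L : FirstOrder.Language.{0, 0}} (hF : ∀ n, IsEmpty (L.Functions n))
    (T : L.Theory) : Dich L T ↔ Pool.Agent.Helper6.Str.CtblK (ModF T) ∨
      Pool.Agent.Helper6.Str.PerfK (ModF T) :=
  OGD.dich_iff hF T

theorem vc_iff {κ : Type} (K : OrderedClass κ) : VC K ↔ OGM.VCM K := by
  constructor
  · intro h ι hι T hT
    refine OGD.Ren_dich (lm_rel ι κ) (lang_rel ι κ) (fun n => (names ι κ n).symm) T
      ((dich_iff (lang_rel ι κ) _).1 (h ι hι _ fun S hS => ?_))
    have h1 := hT _ ((OGD.Ren_model (lm_rel ι κ) (fun n => (names ι κ n).symm) T S).1 hS)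
    exact ⟨h1.1.1, h1.1.2.1, h1.1.2.2, h1.2⟩
  · intro h ι hι T hT
    refine (dich_iff (lang_rel ι κ) T).2 (OGD.Ren_dich (lang_rel ι κ) (lm_rel ι κ) (names ι κ) T
      (h ι hι _ fun S hS => ?_))
    have h1 := hT _ ((OGD.Ren_model (lang_rel ι κ) (names ι κ) T S).1 hS)
    exact ⟨⟨h1.1, h1.2.1, h1.2.2.1⟩, h1.2.2.2⟩

theorem reduct_eq {κ : Type} (K : OrderedClass κ) (c : κ) : OGM.Pr K c = reduct K c := by
  funext n
  refine Set.ext fun q => ?_
  constructor
  · rintro ⟨r, hr, rfl⟩
    exact ⟨r, hr, rfl⟩
  · rintro ⟨r, hr, rfl⟩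
    exact ⟨r, hr, rfl⟩

theorem result_of (hT4 : OGM.T4M) (κ : Type) (hκ : Countable κ) (K : OrderedClass κ)
    (hK : Hereditary K) (hC : Closed K) :
    ((∀ c, BoundedGridRank (reduct K c)) → VC K) ∧
    (∀ (c : κ) (n : ℕ), (reduct K c (4 * n)).ncard < n.factorial →
      BoundedGridRank (reduct K c)) ∧
    ((∃ c, ¬ BoundedGridRank (reduct K c)) → (VC K ↔ FullVC)) := by
  have hC' : OGM.CloM K := fun n r h => hC n r fun s => by
    obtain ⟨r', h1, h2⟩ := h s
    exact ⟨r', h1, fun c hc => funext fun i => funext fun j => propext (h2 c hc i j)⟩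
  have hU : ∀ c, ¬ BoundedGridRank (reduct K c) →
      ∃ τ : κ → OGD.Typ, OGD.Good (τ c) ∧ OGM.AgeNM K c τ := fun c hc =>
    OGM.thm_UNC κ K hK hC' c (by rw [reduct_eq]; exact hc)
  refine ⟨fun hb => (vc_iff K).2 (OGM.thm_OGB hT4 κ hκ K fun c => by
    rw [reduct_eq]; exact hb c), fun c n hn => ?_, ?_⟩
  · by_contra hb
    obtain ⟨τ, h1, h2⟩ := hU c hb
    have h3 : OGD.AgeN (reduct K c) (τ c) := fun M lt hl m z hz => ⟨_, h2 M lt hl m z hz, rfl⟩
    exact absurd (OGD.thm_GRW (reduct K c) (τ c) h1 h3 n) (not_le.2 hn)
  · rintro ⟨c, hb⟩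
    constructor
    · intro h
      obtain ⟨τ, h1, h2⟩ := hU c hb
      have h3 := OGM.thm_EXP OGD.thm_REC κ hκ K c τ h2 ((vc_iff K).1 h)
      refine PMC.ResT3.full_of_vc fun ι hι T hT => ?_
      exact (OGD.dich_iff (OGD.lp_rel ι) T).2 (OGM.thm_SHM OGD.thm_FRM OGD.thm_TRN OGD.thm_COE
        OGD.thm_REC OGD.thm_FUN OGD.thm_DMS PMC.thm_MPK (τ c) h1 h3 ι hι T
        fun S hS => (hT S hS).1)
    · intro h ι hι T _
      have hc : Countable (Lang ι κ).Symbols := by
        have h1 : Countable (Σ m, (Lang ι κ).Functions m) := by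
          have : ∀ m, Countable ((Lang ι κ).Functions m) :=
            fun m => (inferInstance : Countable Empty)
          infer_instance
        have h2 : Countable (Σ m, (Lang ι κ).Relations m) := by
          have : ∀ m, Countable ((Lang ι κ).Relations m) := by
            intro m
            have h3 : Function.Injective (fun s : Sym ι κ m => (match s with
                | .color i => Sum.inl i
                | .lt => Sum.inr none
                | .rel c => Sum.inr (some c) : ι ⊕ Option κ)) := by
              intro s s' h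
              cases s <;> cases s' <;> simp_all
            exact h3.countable
          infer_instance
        exact (inferInstance : Countable ((Σ m, (Lang ι κ).Functions m) ⊕
          (Σ m, (Lang ι κ).Relations m)))
      exact h (Lang ι κ) hc T

end Pool.Agent.OGM.ResM
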