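import Pool.Agent.OGM.Defs
import Pool.Agent.OGD.SEP
import Pool.Agent.OGD.CEA
import Pool.Agent.OGD.CEL
import Pool.Agent.OGD.RAM

/-!
OGM module UNC (helper45): uniform types for countably many relations.
-/

set_option autoImplicit false
set_option linter.unusedVariables false

namespace Pool.Agent.OGM

open Pool.Agent.OGD (Lin Her Bdd Age Phi Cel Typ Good nlt nr AgeN SGrid)

/-- uniform boards for the relations in `s` -/
structure UniM {κ : Type} (s : Finset κ) (c₀ : κ) (τ : κ → Typ) {n : ℕ}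
    (r : κ → Fin n → Fin n → Prop) (k : ℕ) (e : Fin k → Fin k → Fin 4 → Fin n) : Prop where
  cel : Cel (τ c₀).s (r c₀) k e
  in0 : ∀ c ∈ s, ∀ a b i j, r c (e a b i) (e a b j) ↔ (τ c).t0 i j = true
  out : ∀ c ∈ s, ∀ a a' b b' i j, a ≠ a' → b ≠ b' →
    (r c (e a b i) (e a' b' j) ↔ (τ c).t (decide (a < a')) (decide (b < b')) i j = true)

open Classical in
/-- the colour of two rows and two columns -/
noncomputable def UNC_col {κ : Type} (s : Finset κ) {n N : ℕ} (r : κ → Fin n → Fin n → Prop)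
    (e : Fin N → Fin N → Fin 4 → Fin n) (a a' b b' : Fin N) (c : {c // c ∈ s})
    (u v : Bool × Bool × Fin 4) : Bool :=
  decide (r c.1 (e (if u.1 = true then a else a') (if u.2.1 = true then b else b') u.2.2)
    (e (if v.1 = true then a else a') (if v.2.1 = true then b else b') v.2.2))

theorem UNC_col_iff {κ : Type} (s : Finset κ) {n N : ℕ} (r : κ → Fin n → Fin n → Prop)
    (e : Fin N → Fin N → Fin 4 → Fin n) (a a' b b' : Fin N) (c : {c // c ∈ s})
    (u v : Bool × Bool × Fin 4) : UNC_col s r e a a' b b' c u v = true ↔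
    r c.1 (e (if u.1 = true then a else a') (if u.2.1 = true then b else b') u.2.2)
    (e (if v.1 = true then a else a') (if v.2.1 = true then b else b') v.2.2) := by
  classical
  exact decide_eq_true_iff

/-- product Ramsey theorem: uniform boards for finitely many relations -/
theorem UNC_una {κ : Type} (h : OGD.St_RAM) (s : Finset κ) (c₀ : κ) (side : Bool) (k : ℕ) :
    ∃ N, ∀ (n : ℕ) (r : κ → Fin n → Fin n → Prop) (e : Fin N → Fin N → Fin 4 → Fin n),
      Cel side (r c₀) N e →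
      ∃ (τ : κ → Typ) (e' : Fin k → Fin k → Fin 4 → Fin n), UniM s c₀ τ r k e' := by
  classical
  obtain ⟨N, hN⟩ := h ({c // c ∈ s} → (Bool × Bool × Fin 4) → (Bool × Bool × Fin 4) → Bool)
    inferInstance (k + 1)
  refine ⟨N, fun n r e he => ?_⟩
  obtain ⟨f, g, F, hf, hg, hF⟩ := hN (UNC_col s r e)
  have hfk : ∀ a a' : Fin k, a < a' → f a.castSucc < f a'.castSucc := fun a a' haa =>
    hf (Fin.castSucc_lt_castSucc_iff.mpr haa)
  have hgk : ∀ a a' : Fin k, a < a' → g a.castSucc < g a'.castSucc := fun a a' haa =>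
    hg (Fin.castSucc_lt_castSucc_iff.mpr haa)
  let τ : κ → Typ := fun c => if h : c ∈ s then
    ⟨side, fun i j => F ⟨c, h⟩ (true, true, i) (true, true, j),
      fun α β i j => F ⟨c, h⟩ (α, β, i) (!α, !β, j)⟩ else
    ⟨side, fun _ _ => true, fun _ _ _ _ => true⟩
  have hs : ∀ c, (τ c).s = side := by
    intro c
    by_cases h : c ∈ s
    · simp only [τ, h, dif_pos]
    · simp only [τ, h, dif_neg, not_false_eq_true]
  have ht0 : ∀ c (h : c ∈ s), (τ c).t0 = fun i j => F ⟨c, h⟩ (true, true, i) (true, true, j) := by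
    intro c h
    simp only [τ, h, dif_pos]
  have ht : ∀ c (h : c ∈ s), (τ c).t = fun α β i j => F ⟨c, h⟩ (α, β, i) (!α, !β, j) := by
    intro c h
    simp only [τ, h, dif_pos]
  refine ⟨τ, fun a b => e (f a.castSucc) (g b.castSucc), ?_, ?_, ?_⟩
  · rw [hs]
    refine ⟨?_, ?_, ?_, ?_, ?_⟩
    · intro a a' b b' i j hi hj haa
      exact he.row _ _ _ _ i j hi hj (hfk a a' haa)
    · intro a a' b b' i j hi hj hbb
      exact he.col _ _ _ _ i j hi hj (hgk b b' hbb)
    · intro a b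
      exact he.inn _ _
    · intro a a' b b' i j hi hj
      exact he.sep _ _ _ _ i j hi hj
    · intro a a' b b'
      rw [he.phi]
      constructor
      · rintro ⟨h1, h2⟩
        exact ⟨Fin.castSucc_injective k (hf.injective h1), Fin.castSucc_injective k (hg.injective h2)⟩
      · rintro ⟨rfl, rfl⟩
        exact ⟨rfl, rfl⟩
  · intro c hc a b i j
    rw [ht0 c hc]
    have h1 := hF a.castSucc a.succ b.castSucc b.succ Fin.castSucc_lt_succ Fin.castSucc_lt_succ
    have h2 := UNC_col_iff s r e (f a.castSucc) (f a.succ) (g b.castSucc) (g b.succ) ⟨c, hc⟩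
      (true, true, i) (true, true, j)
    rw [h1] at h2
    exact h2.symm
  · intro c hc a a' b b' i j ha hb
    rw [ht c hc]
    rcases lt_or_gt_of_ne ha with ha | ha <;> rcases lt_or_gt_of_ne hb with hb | hb
    · have h1 := hF _ _ _ _ (Fin.castSucc_lt_castSucc_iff.mpr ha)
        (Fin.castSucc_lt_castSucc_iff.mpr hb)
      have h2 := UNC_col_iff s r e (f a.castSucc) (f a'.castSucc) (g b.castSucc) (g b'.castSucc)
        ⟨c, hc⟩ (true, true, i) (false, false, j)
      rw [h1] at h2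
      rw [decide_eq_true ha, decide_eq_true hb]
      exact h2.symm
    · have h1 := hF _ _ _ _ (Fin.castSucc_lt_castSucc_iff.mpr ha)
        (Fin.castSucc_lt_castSucc_iff.mpr hb)
      have h2 := UNC_col_iff s r e (f a.castSucc) (f a'.castSucc) (g b'.castSucc) (g b.castSucc)
        ⟨c, hc⟩ (true, false, i) (false, true, j)
      rw [h1] at h2
      rw [decide_eq_true ha, decide_eq_false (not_lt.mpr hb.le)]
      exact h2.symm
    · have h1 := hF _ _ _ _ (Fin.castSucc_lt_castSucc_iff.mpr ha)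
        (Fin.castSucc_lt_castSucc_iff.mpr hb)
      have h2 := UNC_col_iff s r e (f a'.castSucc) (f a.castSucc) (g b.castSucc) (g b'.castSucc)
        ⟨c, hc⟩ (false, true, i) (true, false, j)
      rw [h1] at h2
      rw [decide_eq_false (not_lt.mpr ha.le), decide_eq_true hb]
      exact h2.symm
    · have h1 := hF _ _ _ _ (Fin.castSucc_lt_castSucc_iff.mpr ha)
        (Fin.castSucc_lt_castSucc_iff.mpr hb)
      have h2 := UNC_col_iff s r e (f a'.castSucc) (f a.castSucc) (g b'.castSucc) (g b.castSucc)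
        ⟨c, hc⟩ (false, false, i) (true, true, j)
      rw [h1] at h2
      rw [decide_eq_false (not_lt.mpr ha.le), decide_eq_false (not_lt.mpr hb.le)]
      exact h2.symm

theorem UNC_fin : Finite Typ := by
  refine Finite.of_injective (fun τ : Typ => (τ.s, τ.t0, τ.t)) ?_
  rintro ⟨s, t0, t⟩ ⟨s', t0', t'⟩ h
  simp only [Prod.mk.injEq] at h
  obtain ⟨rfl, rfl, rfl⟩ := h
  rfl

/-- restriction to smaller boards and sets of relations -/
theorem UNC_mono {κ : Type} {s s' : Finset κ} {c₀ : κ} {τ : κ → Typ} {n k k' : ℕ}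
    {r : κ → Fin n → Fin n → Prop} {e : Fin k → Fin k → Fin 4 → Fin n}
    (h : UniM s c₀ τ r k e) (hs : s' ⊆ s) (hk : k' ≤ k) :
    UniM s' c₀ τ r k' (fun a b => e (Fin.castLE hk a) (Fin.castLE hk b)) := by
  have hlt : ∀ a b : Fin k', a < b → Fin.castLE hk a < Fin.castLE hk b := fun a b hab => hab
  have hlt' : ∀ a b : Fin k', (Fin.castLE hk a < Fin.castLE hk b) ↔ a < b := fun a b => Iff.rfl
  have hne : ∀ a b : Fin k', (Fin.castLE hk a = Fin.castLE hk b) ↔ a = b := by
    intro a b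
    constructor
    · intro h
      exact Fin.castLE_injective hk h
    · intro h
      rw [h]
  refine ⟨⟨?_, ?_, ?_, ?_, ?_⟩, ?_, ?_⟩
  · intro a a' b b' i j hi hj hab
    exact h.cel.row _ _ _ _ i j hi hj (hlt a a' hab)
  · intro a a' b b' i j hi hj hab
    exact h.cel.col _ _ _ _ i j hi hj (hlt b b' hab)
  · intro a b
    exact h.cel.inn _ _
  · intro a a' b b' i j hi hj
    exact h.cel.sep _ _ _ _ i j hi hj
  · intro a a' b b'
    rw [h.cel.phi, hne, hne]
  · intro c hc a b i j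
    exact h.in0 c (hs hc) _ _ i j
  · intro c hc a a' b b' i j ha hb
    rw [h.out c (hs hc) _ _ _ _ i j (fun h' => ha ((hne _ _).1 h')) (fun h' => hb ((hne _ _).1 h'))]
    simp only [hlt']

/-- compactness -/
theorem UNC_lim {κ : Type} (c₀ : κ) (P : Finset κ → ℕ → (κ → Typ) → Prop)
    (hex : ∀ s k, ∃ τ, P s k τ)
    (hmono : ∀ s s' k k' τ, s ⊆ s' → k ≤ k' → P s' k' τ → P s k τ)
    (hloc : ∀ s k τ τ', c₀ ∈ s → (∀ c ∈ s, τ c = τ' c) → P s k τ → P s k τ') :
    ∃ τ, ∀ s k, P s k τ := by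
  classical
  choose t ht using hex
  let U : Ultrafilter (Finset κ × ℕ) := Ultrafilter.of Filter.atTop
  have hU : ∀ p : Finset κ × ℕ, {q | p ≤ q} ∈ U := fun p =>
    Ultrafilter.of_le Filter.atTop (Filter.mem_atTop p)
  have hc : ∀ c, ∃ v : Typ, {q : Finset κ × ℕ | t q.1 q.2 c = v} ∈ U := by
    intro c
    have hfin := UNC_fin
    obtain ⟨v, -, hv⟩ := Ultrafilter.eq_pure_of_finite_mem (f := U.map fun q => t q.1 q.2 c)
      (s := Set.univ) Set.finite_univ Filter.univ_mem
    refine ⟨v, ?_⟩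
    have h1 : ({v} : Set Typ) ∈ U.map fun q => t q.1 q.2 c := by
      rw [hv]
      exact Ultrafilter.mem_pure.2 rfl
    exact h1
  choose τ hτ using hc
  refine ⟨τ, fun s k => ?_⟩
  have h1 : {q : Finset κ × ℕ | (insert c₀ s, k) ≤ q} ∩
      {q | ∀ c ∈ insert c₀ s, t q.1 q.2 c = τ c} ∈ U := by
    refine Filter.inter_mem (hU _) ?_
    have h2 : (⋂ c ∈ insert c₀ s, {q : Finset κ × ℕ | t q.1 q.2 c = τ c}) ∈ (U : Filter _) :=
      (Filter.biInter_finset_mem _).2 fun c _ => hτ c
    refine Filter.mem_of_superset h2 ?_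
    intro q hq c hc
    exact Set.mem_iInter₂.1 hq c hc
  obtain ⟨q, hq1, hq2⟩ := Ultrafilter.nonempty_of_mem h1
  have h3 : P (insert c₀ s) k (t q.1 q.2) := hmono _ _ _ _ _ hq1.1 hq1.2 (ht q.1 q.2)
  exact hmono _ _ _ _ _ (Finset.subset_insert _ _) le_rfl
    (hloc _ _ _ _ (Finset.mem_insert_self _ _) hq2 h3)

theorem UNC_good {κ : Type} {c₀ : κ} {τ : κ → Typ} {n : ℕ} {r : κ → Fin n → Fin n → Prop}
    {e : Fin 2 → Fin 2 → Fin 4 → Fin n} (h : UniM {c₀} c₀ τ r 2 e) : Good (τ c₀) := by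
  have hm : c₀ ∈ ({c₀} : Finset κ) := Finset.mem_singleton_self c₀
  constructor
  · have h1 := (h.cel.phi 0 0 0 0).2 ⟨rfl, rfl⟩
    unfold Phi at h1 ⊢
    rw [h.in0 c₀ hm, h.in0 c₀ hm, h.in0 c₀ hm, h.in0 c₀ hm] at h1
    exact h1
  · intro a b h2
    have key : ∀ c : Bool, (if c = true then (0 : Fin 2) else 1) ≠ (if c = true then (1 : Fin 2) else 0)
        ∧ decide ((if c = true then (0 : Fin 2) else 1) < (if c = true then (1 : Fin 2) else 0)) = c := by
      intro c
      cases c <;> decide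
    obtain ⟨ha, ha'⟩ := key a
    obtain ⟨hb, hb'⟩ := key b
    have h1 := h.cel.phi (if a = true then (0 : Fin 2) else 1) (if a = true then (1 : Fin 2) else 0)
      (if b = true then (0 : Fin 2) else 1) (if b = true then (1 : Fin 2) else 0)
    unfold Phi at h1 h2
    rw [h.out c₀ hm _ _ _ _ _ _ ha hb, h.out c₀ hm _ _ _ _ _ _ ha hb,
      h.out c₀ hm _ _ _ _ _ _ ha hb, h.out c₀ hm _ _ _ _ _ _ ha hb, ha', hb'] at h1
    exact ha (h1.1 h2).1

open Classical in
/-- the number of the smaller elements of `P` -/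
noncomputable def UNC_rk {M : Type} (lt : M → M → Prop) (P : Finset M) (p : M) :
    Fin (P.card + 1) :=
  ⟨(P.filter fun q => lt q p).card, Nat.lt_succ_of_le (Finset.card_filter_le _ _)⟩

theorem UNC_rk_lt {M : Type} {lt : M → M → Prop} (hl : Lin lt) {P : Finset M} {p q : M}
    (hp : p ∈ P) : UNC_rk lt P p < UNC_rk lt P q ↔ lt p q := by
  classical
  obtain ⟨h1, h2, h3⟩ := hl
  constructor
  · intro h
    by_contra hcon
    have h4 : (P.filter fun x => lt x q) ⊆ (P.filter fun x => lt x p) := by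
      intro x hx
      rw [Finset.mem_filter] at hx ⊢
      refine ⟨hx.1, ?_⟩
      by_cases e : p = q
      · rw [e]
        exact hx.2
      · rcases h3 p q e with h5 | h5
        · exact absurd h5 hcon
        · exact h2 x q p hx.2 h5
    have h5 := Finset.card_le_card h4
    have h6 : (P.filter fun x => lt x p).card < (P.filter fun x => lt x q).card := by
      have h7 := Fin.lt_def.1 h
      unfold UNC_rk at h7
      simpa using h7
    omega
  · intro h
    have h4 : (P.filter fun x => lt x p) ⊂ (P.filter fun x => lt x q) := by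
      rw [Finset.ssubset_iff_of_subset]
      · refine ⟨p, Finset.mem_filter.2 ⟨hp, h⟩, fun h' => h1 p (Finset.mem_filter.1 h').2⟩
      · intro x hx
        rw [Finset.mem_filter] at hx ⊢
        exact ⟨hx.1, h2 x p q hx.2 h⟩
    have h5 := Finset.card_lt_card h4
    rw [Fin.lt_def]
    unfold UNC_rk
    simpa using h5

theorem UNC_age {κ : Type} {K : Cla κ} (hK : HerM K) (hC : CloM K) {c₀ : κ} {τ : κ → Typ}
    (h : ∀ (s : Finset κ) k, ∃ n, ∃ r ∈ K n, ∃ e, UniM s c₀ τ r k e) : AgeNM K c₀ τ := by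
  classical
  intro M lt hl m z hz
  refine hC _ _ fun s => ?_
  set P : Finset M := Finset.univ.image fun i => (z i).1 with hP
  have hmem : ∀ i, (z i).1 ∈ P := fun i => Finset.mem_image.2 ⟨i, Finset.mem_univ i, rfl⟩
  obtain ⟨n, r, hr, e, hU⟩ := h s (P.card + 1)
  set A : M → Fin (P.card + 1) := UNC_rk (lt true) P with hA
  set B : M → Fin (P.card + 1) := UNC_rk (lt false) P with hB
  have hAlt : ∀ p ∈ P, ∀ q, A p < A q ↔ lt true p q := fun p hp q => UNC_rk_lt (hl true) hp
  have hBlt : ∀ p ∈ P, ∀ q, B p < B q ↔ lt false p q := fun p hp q => UNC_rk_lt (hl false) hp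
  let g : M × Fin 4 → Fin n := fun x => e (A x.1) (B x.1) x.2
  have hmono : ∀ x y : M × Fin 4, x.1 ∈ P → y.1 ∈ P → nlt lt (τ c₀) x y → g x < g y := by
    rintro ⟨p, i⟩ ⟨q, j⟩ hp hq hxy
    have hp' : p ∈ P := hp
    rcases hxy with ⟨hi, hj, h1 | ⟨h1, h2⟩⟩ | ⟨hi, hj, h1 | ⟨h1, h2⟩⟩ | ⟨hi, hj, h1⟩ | ⟨hi, hj, h1⟩
    · exact hU.cel.row _ _ _ _ i j hi hj ((hAlt p hp' q).2 h1)
    · have e1 : p = q := h1
      subst e1
      have hi' : i.1 < 2 := hi
      have hj' : j.1 < 2 := hj
      have h2' : i.1 < j.1 := h2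
      have ei : i = 0 := Fin.ext (show i.1 = 0 by omega)
      have ej : j = 1 := Fin.ext (show j.1 = 1 by omega)
      subst ei ej
      exact (hU.cel.inn _ _).1
    · exact hU.cel.col _ _ _ _ i j hi hj ((hBlt p hp' q).2 h1)
    · have e1 : p = q := h1
      subst e1
      have hi' : 2 ≤ i.1 := hi
      have hj' : 2 ≤ j.1 := hj
      have h2' : i.1 < j.1 := h2
      have hj2 := j.2
      have ei : i = 2 := Fin.ext (show i.1 = 2 by omega)
      have ej : j = 3 := Fin.ext (show j.1 = 3 by omega)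
      subst ei ej
      exact (hU.cel.inn _ _).2
    · exact (hU.cel.sep _ _ _ _ i j hi hj).1 h1
    · exact (hU.cel.sep _ _ _ _ j i hj hi).2 h1
  have hrel : ∀ c ∈ s, ∀ x y : M × Fin 4, x.1 ∈ P → y.1 ∈ P →
      (r c (g x) (g y) ↔ nr lt (τ c) x y) := by
    rintro c hc ⟨p, i⟩ ⟨q, j⟩ hp hq
    have hp' : p ∈ P := hp
    have hq' : q ∈ P := hq
    by_cases e1 : p = q
    · subst e1
      have h1 : r c (g (p, i)) (g (p, j)) ↔ (τ c).t0 i j = true := hU.in0 c hc _ _ i j
      rw [h1]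
      constructor
      · intro h2
        exact Or.inl ⟨rfl, h2⟩
      · rintro (⟨-, h2⟩ | ⟨h2, -⟩)
        · exact h2
        · exact absurd rfl h2
    · have hAne : A p ≠ A q := by
        intro h2
        rcases (hl true).2.2 p q e1 with h3 | h3
        · exact absurd h2 (ne_of_lt ((hAlt p hp' q).2 h3))
        · exact absurd h2.symm (ne_of_lt ((hAlt q hq' p).2 h3))
      have hBne : B p ≠ B q := by
        intro h2
        rcases (hl false).2.2 p q e1 with h3 | h3
        · exact absurd h2 (ne_of_lt ((hBlt p hp' q).2 h3))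
        · exact absurd h2.symm (ne_of_lt ((hBlt q hq' p).2 h3))
      have h1 : r c (g (p, i)) (g (q, j)) ↔
          (τ c).t (decide (A p < A q)) (decide (B p < B q)) i j = true :=
        hU.out c hc _ _ _ _ i j hAne hBne
      rw [h1]
      constructor
      · intro h2
        refine Or.inr ⟨e1, decide (A p < A q), decide (B p < B q), ?_, ?_, h2⟩
        · rw [decide_eq_true_iff]
          exact hAlt p hp' q
        · rw [decide_eq_true_iff]
          exact hBlt p hp' q
      · rintro (⟨h2, -⟩ | ⟨-, a, b, ha, hb, h2⟩)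
        · exact absurd h2 e1
        · have ea : decide (A p < A q) = a := by
            rw [Bool.eq_iff_iff, decide_eq_true_iff, ha]
            exact hAlt p hp' q
          have eb : decide (B p < B q) = b := by
            rw [Bool.eq_iff_iff, decide_eq_true_iff, hb]
            exact hBlt p hp' q
          rw [ea, eb]
          exact h2
  refine ⟨_, hK m n (fun i => g (z i)) (fun i j hij => hmono _ _ (hmem i) (hmem j) (hz i j hij)) r hr,
    fun c hc i j => hrel c hc _ _ (hmem i) (hmem j)⟩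

/-- [UNC] -/
theorem thm_UNC : St_UNC := by
  intro κ K hK hC c₀ hb
  have hCEL := OGD.thm_CEL OGD.thm_CEA
  obtain ⟨side, hs⟩ := OGD.thm_SEP (Pr K c₀) hb
  have hex : ∀ (s : Finset κ) (k : ℕ), ∃ τ : κ → Typ, ∃ n, ∃ r ∈ K n, ∃ e, UniM s c₀ τ r k e := by
    intro s k
    obtain ⟨N, hN⟩ := UNC_una OGD.thm_RAM s c₀ side k
    obtain ⟨N', hN'⟩ := hCEL side N
    obtain ⟨n, q, ⟨r, hr, rfl⟩, hg⟩ := hs N'
    obtain ⟨e, he⟩ := hN' n (r c₀) hg
    obtain ⟨τ, e', h⟩ := hN n r e he
    exact ⟨τ, n, r, hr, e', h⟩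
  obtain ⟨τ, hτ⟩ := UNC_lim c₀ (fun s k τ => ∃ n, ∃ r ∈ K n, ∃ e, UniM s c₀ τ r k e) hex
    (fun s s' k k' τ hss hkk => fun ⟨n, r, hr, e, h⟩ => ⟨n, r, hr, _, UNC_mono h hss hkk⟩)
    (fun s k τ τ' h0 hc => fun ⟨n, r, hr, e, h⟩ => ⟨n, r, hr, e, ⟨by rw [← hc c₀ h0]; exact h.cel,
      fun c hcs => by rw [← hc c hcs]; exact h.in0 c hcs,
      fun c hcs => by rw [← hc c hcs]; exact h.out c hcs⟩⟩)
  obtain ⟨n, r, -, e, hU⟩ := hτ {c₀} 2
  exact ⟨τ, UNC_good hU, UNC_age hK hC hτ⟩

end Pool.Agent.OGM
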